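import Pool.Agent.H.MP_f639ae_co.A
set_option autoImplicit false
namespace Pool.Agent.Results.MP_f639ae_co.Growth

noncomputable def dim (k : ℕ) (P : Type) [PartialOrder P] : ℕ :=
  sInf {n | Nonempty (P ↪o (Fin n → Fin k))}

structure Irr (k t : ℕ) where
  m : ℕ
  [po : PartialOrder (ULift.{0} (Fin m))]
  dim_eq : @dim k (ULift.{0} (Fin m)) po = t
  irr : ∀ x : ULift.{0} (Fin m), @dim k {y // y ≠ x} (@Subtype.partialOrder _ po _) < t

def Iso (k t : ℕ) (A B : Irr k t) : Prop :=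
  Nonempty (@OrderIso (ULift.{0} (Fin A.m)) (ULift.{0} (Fin B.m)) A.po.toLE B.po.toLE)

noncomputable def N (k t : ℕ) : ℕ∞ := ENat.card (Quot (Iso k t))

lemma dimc (k : ℕ) {P Q : Type} [PartialOrder P] [PartialOrder Q] (e : P ≃o Q) :
    dim k P = dim k Q :=
  congrArg sInf (Set.ext fun _ => ⟨fun ⟨f⟩ => ⟨e.symm.toOrderEmbedding.trans f⟩,
    fun ⟨f⟩ => ⟨e.toOrderEmbedding.trans f⟩⟩)

def bl {a : ℕ} (r : Fin a → Fin a → Prop) (x y : Fin a ⊕ Fin a) : Prop :=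
  x = y ∨ ∃ i j, x = .inl i ∧ y = .inr j ∧ r i j

@[reducible] def bip {a : ℕ} (r : Fin a → Fin a → Prop) : PartialOrder (Fin a ⊕ Fin a) where
  le := bl r
  lt x y := bl r x y ∧ ¬bl r y x
  lt_iff_le_not_ge _ _ := Iff.rfl
  le_refl _ := Or.inl rfl
  le_trans x y z := by
    rintro (rfl | ⟨i, j, rfl, rfl, h⟩) (rfl | ⟨i', j', e, rfl, h'⟩)
    · exact Or.inl rfl
    · exact Or.inr ⟨i', j', e, rfl, h'⟩
    · exact Or.inr ⟨i, j, rfl, rfl, h⟩
    · cases e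
  le_antisymm x y := by
    rintro (rfl | ⟨i, j, rfl, rfl, h⟩) (e | ⟨i', j', e, -, -⟩)
    · rfl
    · rfl
    · cases e
    · cases e

lemma one (k a : ℕ) (hk : 2 ≤ k) (r : Fin a → Fin a → Prop) :
    ∃ t, (1 ≤ t ∧ a + a ≤ k ^ t) ∧ t ≤ k * (4 * a + 2) + 8 * a + 7 ∧ ∃ A : Irr k t, A.m ≤ k * (4 * a + 2) + 8 * a + 7 ∧
      ∃ f : Fin a ⊕ Fin a → ULift.{0} (Fin A.m), ∀ i j, r i j ↔ A.po.le (f (.inl i)) (f (.inr j)) := by
  letI := bip r
  obtain ⟨Q, _, _, ⟨f⟩, h1, h2, h3⟩ := H.MP_f639ae_co.strong k hk (Fin a ⊕ Fin a)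
  simp only [Fintype.card_sum, Fintype.card_fin] at h3
  have h4 : Fintype.card Q ≤ k * (4 * a + 2) + 8 * a + 7 := h3.trans (le_of_eq (by ring))
  let e : ULift.{0} (Fin (Fintype.card Q)) ≃ Q := Equiv.ulift.trans (Fintype.equivFin Q).symm
  letI po : PartialOrder (ULift.{0} (Fin (Fintype.card Q))) := PartialOrder.lift e e.injective
  let o : @OrderIso _ Q po.toLE _ := @RelIso.mk _ _ _ _ e Iff.rfl
  refine ⟨dim k Q, ⟨lt_of_le_of_lt (Nat.zero_le _) h1, ?_⟩, ?_,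
    ⟨Fintype.card Q, dimc k o, fun x => ?_⟩, h4, fun x => e.symm (f x), fun i j => ?_⟩
  · obtain ⟨j, rfl⟩ := Nat.exists_eq_add_of_le' hk
    obtain ⟨g⟩ : dim (j + 2) Q ∈ {n | Nonempty (Q ↪o (Fin n → Fin (j + 2)))} :=
      Nat.sInf_mem ⟨_, MP_6e33d6_co.Yes.emb j Q⟩
    simpa using Fintype.card_le_of_injective _ (f.trans g).injective
  · obtain ⟨j, rfl⟩ := Nat.exists_eq_add_of_le' hk
    exact (Nat.sInf_le (MP_6e33d6_co.Yes.emb j Q)).trans h4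
  · refine lt_of_eq_of_lt (dimc k ?_) (h2 (e x))
    exact @RelIso.mk _ _ _ _ (e.subtypeEquiv fun y => e.injective.ne_iff.symm) Iff.rfl
  · change _ ↔ e (e.symm _) ≤ e (e.symm _)
    rw [e.apply_symm_apply, e.apply_symm_apply, f.map_rel_iff]
    refine ⟨fun h => Or.inr ⟨i, j, rfl, rfl, h⟩, ?_⟩
    rintro (e | ⟨i', j', e, e', h⟩)
    · cases e
    · cases e; cases e'; exact h

lemma eqv (k t : ℕ) : Equivalence (Iso k t) :=
  ⟨fun A => ⟨@OrderIso.refl _ A.po.toLE⟩, fun {A B} ⟨e⟩ => ⟨@OrderIso.symm _ _ A.po.toLE B.po.toLE e⟩,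
    fun {A B C} ⟨e⟩ ⟨f⟩ => ⟨@OrderIso.trans _ _ _ A.po.toLE B.po.toLE C.po.toLE e f⟩⟩

theorem result (k : ℕ) (hk : 2 ≤ k) : ¬∃ C c T : ℕ, ∀ t : ℕ, T ≤ t → N k t ≤ C * t ^ c := by
  classical
  rintro ⟨C, c, T, h⟩
  obtain ⟨v, hv⟩ : ∃ v, v = k * T := ⟨_, rfl⟩
  obtain ⟨u, hu⟩ : ∃ u, u = C + 3 * c + 20 * k + 50 + v := ⟨_, rfl⟩
  obtain ⟨a, ha⟩ : ∃ a, a = 2 ^ (2 * u) := ⟨_, rfl⟩
  obtain ⟨M, hM⟩ : ∃ M, M = k * (4 * a + 2) + 8 * a + 7 := ⟨_, rfl⟩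
  have big (t) (h1 : a + a ≤ k ^ t) : T ≤ t := by
    by_contra n
    have b1 : k ^ t ≤ k ^ T := Nat.pow_le_pow_right (by omega) (by omega)
    have b2 : k ^ T ≤ 2 ^ v := by
      rw [hv, pow_mul]; exact Nat.pow_le_pow_left Nat.lt_two_pow_self.le _
    have b3 : 2 ^ v ≤ a := ha ▸ Nat.pow_le_pow_right (by omega) (by omega)
    have b4 : 0 < a := ha ▸ Nat.two_pow_pos _
    omega
  have emb (t) (h1 : T ≤ t) (h2 : t ≤ M) : Nonempty (Quot (Iso k t) ↪ Fin (C * M ^ c)) := by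
    have b : N k t ≤ (C * M ^ c : ℕ) := (h t h1).trans (by
      exact_mod_cast Nat.mul_le_mul_left C (Nat.pow_le_pow_left h2 c))
    have : Finite (Quot (Iso k t)) := ENat.card_lt_top.1 (b.trans_lt (ENat.natCast_lt_top _))
    have := Fintype.ofFinite (Quot (Iso k t))
    rw [N, ENat.card_eq_coe_fintype_card, Nat.cast_le] at b
    exact Function.Embedding.nonempty_of_card_le (by simpa using b)
  have key (r : Fin a → Fin a → Prop) : ∃ (t : {t : Fin M // T ≤ t.1 + 1})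
      (q : Quot (Iso k (t.1 + 1))) (g : Fin a ⊕ Fin a → Fin M), ∀ i j, r i j ↔ ∃ x y, q.out.po.le x y ∧
        x.down.1 = (g (.inl i)).1 ∧ y.down.1 = (g (.inr j)).1 := by
    obtain ⟨t, ⟨t1, t0⟩, t2, A, a1, f, hf⟩ := one k a hk r
    obtain ⟨t, rfl⟩ := Nat.exists_eq_add_of_le' t1
    obtain ⟨e⟩ : Iso k _ A (Quot.mk (Iso k _) A).out :=
      (eqv k _).eqvGen_iff.1 (Quot.eqvGen_exact (Quot.out_eq _).symm)
    have c1 : A.m = (Quot.mk (Iso k _) A).out.m := by simpa using Fintype.card_congr e.toEquiv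
    refine ⟨⟨⟨t, by omega⟩, big _ t0⟩, Quot.mk _ A, fun z => ⟨(e (f z)).down.1, by
      have := (e (f z)).down.2
      omega⟩, fun i j => (hf i j).trans ⟨fun w => ⟨_, _, e.map_rel_iff.2 w, rfl, rfl⟩, ?_⟩⟩
    rintro ⟨x, y, w, e1, e2⟩
    rw [show x = e (f (.inl i)) from ULift.ext _ _ (Fin.ext e1),
      show y = e (f (.inr j)) from ULift.ext _ _ (Fin.ext e2)] at w
    exact e.map_rel_iff.1 w
  choose t q g hg using key
  let E (t : {t : Fin M // T ≤ t.1 + 1}) := (emb (t.1 + 1) t.2 t.1.2).some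
  have := Fintype.card_le_of_injective (fun r => ((t r).1, E (t r) (q r), g r)) fun r s e => by
    simp only [Prod.mk.injEq] at e
    obtain ⟨e1, e2, e3⟩ := e
    replace e1 := Subtype.ext e1
    ext i j
    rw [hg r, hg s, e3]
    revert e2
    generalize q r = x, q s = y
    revert x y
    rw [e1]
    intro x y e2
    rw [(E _).injective e2]
  simp only [Fintype.card_pi, Fintype.card_prop, Finset.prod_const, Finset.card_univ,
    Fintype.card_fin, Fintype.card_prod, Fintype.card_sum] at this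
  have a1 : u < 2 ^ u := Nat.lt_two_pow_self
  have a2 : u * u < a := by rw [ha, two_mul, pow_add]; exact Nat.mul_lt_mul'' a1 a1
  have a3 : M ≤ 2 ^ (3 * u) := by
    rw [show 3 * u = u + 2 * u by ring, pow_add, ← ha]
    nlinarith
  have a4 : C ≤ 2 ^ C := Nat.lt_two_pow_self.le
  have a5 : M * (C * M ^ c * M ^ (a + a)) ≤ 2 ^ (C + 3 * u * (1 + c + (a + a))) := by
    calc _ = C * M ^ (1 + c + (a + a)) := by ring
      _ ≤ 2 ^ C * (2 ^ (3 * u)) ^ (1 + c + (a + a)) :=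
        Nat.mul_le_mul a4 (Nat.pow_le_pow_left a3 _)
      _ = _ := by rw [← pow_mul, ← pow_add]
  have a6 := this.trans a5
  rw [← pow_mul, Nat.pow_le_pow_iff_right (by norm_num)] at a6
  have a7 : 50 * u ≤ a := by nlinarith
  have a8 : C + 1 + c ≤ a := by nlinarith
  nlinarith

end Pool.Agent.Results.MP_f639ae_co.Growth
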